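import Pool.Agent.N748.MG.CONT
import Pool.Agent.N748.MG.EUL

set_option autoImplicit false

/-!
Trimmed moments (helper5): the arithmetic factor `a(k)` is less than one for `k ≠ 1`. The first part repeats the proof of
`Pool.Agent.N748.MG.aC_akR`.
-/

namespace Run7.h5.TM

open Finset Filter MeasureTheory Topology
open Pool.Agent.N748.MG Pool.Agent.N748.MG.CON

/-- the local factor -/
noncomputable def gp (V : ℝ) (p : Nat.Primes) : ℝ := (1 - 1 / (p : ℝ)) ^ (V ^ 2) *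
    ∑' m : ℕ, lR V m ^ 2 * (1 / (p : ℝ)) ^ m

lemma gp_summable (V : ℝ) (p : Nat.Primes) : Summable fun m : ℕ => lR V m ^ 2 * (1 / (p : ℝ)) ^ m := by
  have h := (FF_summable (s := V) (px p).2).norm
  refine Summable.of_norm (h.congr fun m => ?_)
  rw [lC_ofReal, norm_mul, norm_mul, norm_pow, norm_pow, norm_pow, norm_pow, Complex.norm_real,
    (px p).1, Real.norm_of_nonneg (r := 1 / (p : ℝ)) (by positivity)]

lemma half_le (p : Nat.Primes) : (1 : ℝ) / 2 ≤ 1 - 1 / (p : ℝ) := by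
  have h := (px p).2
  rw [(px p).1] at h
  linarith

lemma gp_pos (V : ℝ) (p : Nat.Primes) : 0 < gp V p := by
  unfold gp
  refine mul_pos (Real.rpow_pos_of_pos (by linarith [half_le p]) _) ?_
  have h1 := (gp_summable V p).le_tsum 0 fun m _ => by positivity
  have h2 : lR V 0 ^ 2 * (1 / (p : ℝ)) ^ 0 = 1 := by
    unfold lR
    simp
  rw [h2] at h1
  linarith

lemma gp_hasProd (V : ℝ) : HasProd (gp V) (∏' p, gp V p) := by
  obtain ⟨k, hk⟩ := exists_nat_ge ‖(V : ℂ)‖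
  obtain ⟨C, hC, hCb⟩ := Gp_bd k
  have hgC : ∀ p : Nat.Primes, Gp V (1 / (p : ℂ)) = ((gp V p : ℝ) : ℂ) := by
    intro p
    unfold Gp FF gp
    rw [Complex.ofReal_mul, Complex.ofReal_cpow (by linarith [half_le p]), Complex.ofReal_tsum]
    congr 1
    · push_cast
      rfl
    · congr 1
      funext m
      rw [lC_ofReal]
      push_cast
      rfl
  have hgs : Summable fun p => gp V p - 1 := by
    refine Summable.of_norm_bounded (sum_px C) fun p => ?_
    have h1 := hCb V (1 / (p : ℂ)) hk (px p).2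
    rw [(px p).1, hgC] at h1
    rwa [← Complex.ofReal_one, ← Complex.ofReal_sub, Complex.norm_real] at h1
  have hlog : Summable fun p => Real.log (gp V p) := by
    refine (Real.summable_log_one_add_of_summable hgs).congr fun p => ?_
    rw [add_sub_cancel]
  have hprod := Real.hasProd_of_hasSum_log (gp_pos V) hlog.hasSum
  rw [hprod.tprod_eq]
  exact hprod

/-- the coefficients: `(k)_m² / m!² ≤ (k²)_m / m!` -/
lemma lR_sq_le {V : ℝ} (hV : 0 < V) (m : ℕ) : lR V m ^ 2 ≤ lR (V ^ 2) m := by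
  unfold lR
  rw [← Finset.prod_pow]
  apply Finset.prod_le_prod
  · intro i _
    positivity
  · intro i _
    have hi : (0:ℝ) < (i:ℝ) + 1 := by positivity
    rw [div_pow, div_le_div_iff₀ (by positivity) hi]
    nlinarith [mul_nonneg (Nat.cast_nonneg (α := ℝ) i) (sq_nonneg (V - 1)), sq_nonneg (V - 1)]

lemma hasSum_lR (a x : ℝ) (hx0 : 0 ≤ x) (hx : x < 1) : HasSum (fun m => lR a m * x ^ m) ((1 - x) ^ (-a)) := by
  have h := (EUL.hasSum_lC (a : ℂ) (x : ℂ) (by rw [Complex.norm_real, Real.norm_of_nonneg hx0]; exact hx)).1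
  have e1 : (1 - (x : ℂ)) ^ (-(a : ℂ)) = (((1 - x) ^ (-a) : ℝ) : ℂ) := by
    rw [Complex.ofReal_cpow (by linarith)]
    push_cast
    rfl
  have e2 : (fun m : ℕ => lC (a : ℂ) m * (x : ℂ) ^ m) = fun m => ((lR a m * x ^ m : ℝ) : ℂ) := by
    funext m
    rw [lC_ofReal]
    push_cast
    rfl
  rw [e1, e2] at h
  exact Complex.hasSum_ofReal.mp h

lemma px1 (p : Nat.Primes) : 0 ≤ 1 / (p : ℝ) ∧ 1 / (p : ℝ) < 1 := by
  have := half_le p
  exact ⟨by positivity, by linarith⟩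

lemma gp_le_one {V : ℝ} (hV : 0 < V) (p : Nat.Primes) : gp V p ≤ 1 := by
  obtain ⟨h0, h1⟩ := px1 p
  have h2 := hasSum_lR (V ^ 2) (1 / (p : ℝ)) h0 h1
  have h3 : ∑' m : ℕ, lR V m ^ 2 * (1 / (p : ℝ)) ^ m ≤ (1 - 1 / (p : ℝ)) ^ (-(V ^ 2)) := by
    rw [← h2.tsum_eq]
    refine Summable.tsum_le_tsum (fun m => ?_) (gp_summable V p) h2.summable
    exact mul_le_mul_of_nonneg_right (lR_sq_le hV m) (by positivity)
  unfold gp
  have h4 : 0 < 1 - 1 / (p : ℝ) := by linarith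
  calc _ ≤ (1 - 1 / (p : ℝ)) ^ (V ^ 2) * (1 - 1 / (p : ℝ)) ^ (-(V ^ 2)) := by gcongr
    _ = 1 := by rw [← Real.rpow_add h4]; simp

lemma gp_lt_one {V : ℝ} (hV : 0 < V) (hV1 : V ≠ 1) (p : Nat.Primes) : gp V p < 1 := by
  obtain ⟨h0, h1⟩ := px1 p
  have hp0 : 0 < 1 / (p : ℝ) := by
    have : 0 < (p : ℝ) := by exact_mod_cast p.2.pos
    positivity
  have h2 := hasSum_lR (V ^ 2) (1 / (p : ℝ)) h0 h1
  have h3 : ∑' m : ℕ, lR V m ^ 2 * (1 / (p : ℝ)) ^ m < (1 - 1 / (p : ℝ)) ^ (-(V ^ 2)) := by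
    rw [← h2.tsum_eq]
    refine Summable.tsum_lt_tsum (i := 2) (fun m => ?_) ?_ (gp_summable V p) h2.summable
    · exact mul_le_mul_of_nonneg_right (lR_sq_le hV m) (by positivity)
    · apply mul_lt_mul_of_pos_right _ (by positivity)
      have e1 : lR V 2 = V * ((V + 1) / 2) := by
        unfold lR
        rw [Finset.prod_range_succ, Finset.prod_range_one]
        norm_num
      have e2 : lR (V ^ 2) 2 = V ^ 2 * ((V ^ 2 + 1) / 2) := by
        unfold lR
        rw [Finset.prod_range_succ, Finset.prod_range_one]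
        norm_num
      rw [e1, e2]
      have h5 : 0 < (V - 1) ^ 2 := by
        have : V - 1 ≠ 0 := sub_ne_zero.mpr hV1
        positivity
      have h6 : 0 < V ^ 2 := by positivity
      nlinarith [mul_pos h6 h5]
  unfold gp
  have h4 : 0 < 1 - 1 / (p : ℝ) := by linarith
  calc _ < (1 - 1 / (p : ℝ)) ^ (V ^ 2) * (1 - 1 / (p : ℝ)) ^ (-(V ^ 2)) := by
        apply mul_lt_mul_of_pos_left h3 (Real.rpow_pos_of_pos h4 _)
    _ = 1 := by rw [← Real.rpow_add h4]; simp

/-- `a(k) < 1` for `k ≠ 1` -/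
theorem ak_lt_one {V : ℝ} (hV : 0 < V) (hV1 : V ≠ 1) : ∏' p, gp V p < 1 := by
  set q : Nat.Primes := ⟨2, Nat.prime_two⟩ with hq
  refine lt_of_le_of_lt ?_ (gp_lt_one hV hV1 q)
  refine le_of_tendsto (gp_hasProd V) ?_
  filter_upwards [eventually_ge_atTop ({q} : Finset Nat.Primes)] with s hs
  have hqs : q ∈ s := hs (Finset.mem_singleton_self q)
  rw [← Finset.mul_prod_erase s (gp V) hqs]
  have h1 : ∏ p ∈ s.erase q, gp V p ≤ 1 :=
    Finset.prod_le_one (fun p _ => (gp_pos V p).le) (fun p _ => gp_le_one hV p)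
  have h2 := (gp_pos V q).le
  nlinarith

end Run7.h5.TM
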