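import Pool.Agent.N748.MG.TMC

set_option autoImplicit false

/-!
Trimmed moments (helper5): the large deviation theorem of `N748/MG` at shifted levels.
-/

namespace Run7.h5.TM

open Finset Filter MeasureTheory Topology Complex
open Pool.Agent.N748.MG Pool.Agent.N748.MG.TMC

/-- the large deviation theorem for an exponential on a half line, shifted by `u` -/
theorem genU (hL : S_LD) {d : ℝ → ℝ} (hd : Ad d) (V κ s u : ℝ) (hs : s * s = 1)
    (ha : 0 < s * (V - κ)) (hκ : s * κ ≤ 0) (B : Set ℝ) (hB : MeasurableSet B)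
    (h1 : ∀ x, 0 < s * x → x ∈ B) (h2 : ∀ x ∈ B, 0 ≤ s * x)
    (hI : ∫ x in B, Real.exp (-(2 * (V - κ)) * x) = 1 / (2 * (s * (V - κ)))) :
    Tendsto (fun T : ℝ => Real.sqrt (Real.pi * Real.log (1 / (2 * d T))) *
      (2 * d T) ^ (-(V ^ 2)) * ((1 / T) * ∫ t in (0:ℝ)..T,
        B.indicator (fun x => Real.exp (2 * κ * x))
          (Real.log (mz (d T) t) - V * Real.log (1 / (2 * d T)) - u))) atTop
    (𝓝 ((aC V).re * (Real.exp (-(2 * V * u)) * (1 / (2 * (s * (V - κ))))))) := by
  have hsq : ∀ x : ℝ, x = s * (s * x) := fun x => by rw [← mul_assoc, hs, one_mul]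
  have hle1 : ∀ x, |B.indicator (fun x => Real.exp (2 * κ * x)) x| ≤ 1 := by
    intro x
    by_cases hx : x ∈ B
    · rw [Set.indicator_of_mem hx, abs_of_pos (Real.exp_pos _)]
      apply Real.exp_le_one_iff.2
      have h3 := h2 x hx
      have h4 : κ * x = (s * κ) * (s * x) := by
        have : (s * κ) * (s * x) = (s * s) * (κ * x) := by ring
        rw [this, hs, one_mul]
      have h5 : (s * κ) * (s * x) ≤ 0 := mul_nonpos_of_nonpos_of_nonneg hκ h3
      rw [mul_assoc, h4]
      linarith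
    · rw [Set.indicator_of_notMem hx, abs_zero]
      exact zero_le_one
  have hmeas : Measurable (fun x => B.indicator (fun x => Real.exp (2 * κ * x)) (x - u)) :=
    ((by fun_prop : Measurable (fun x : ℝ => Real.exp (2 * κ * x))).indicator hB).comp
      (measurable_id.sub_const u)
  have hcont : ∀ x, x ∉ ({0} : Finset ℝ) → ContinuousAt (B.indicator (fun x => Real.exp (2 * κ * x))) x := by
    intro x hx
    have hx0 : x ≠ 0 := by simpa using hx
    have hs0 : s ≠ 0 := by
      rintro rfl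
      norm_num at hs
    have hsx : s * x ≠ 0 := mul_ne_zero hs0 hx0
    rcases lt_or_gt_of_ne hsx with h3 | h3
    · have h4 : ∀ᶠ y in 𝓝 x, s * y < 0 :=
        (by fun_prop : Continuous fun y : ℝ => s * y).continuousAt.eventually_lt
          continuousAt_const h3
      have h5 : B.indicator (fun x => Real.exp (2 * κ * x)) =ᶠ[𝓝 x] fun _ => (0 : ℝ) := by
        filter_upwards [h4] with y hy
        exact Set.indicator_of_notMem (fun hyB => absurd (h2 y hyB) (not_le.2 hy)) _
      exact continuousAt_const.congr h5.symm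
    · have h4 : ∀ᶠ y in 𝓝 x, 0 < s * y :=
        continuousAt_const.eventually_lt
          (by fun_prop : Continuous fun y : ℝ => s * y).continuousAt h3
      have h5 : B.indicator (fun x => Real.exp (2 * κ * x)) =ᶠ[𝓝 x]
          fun x => Real.exp (2 * κ * x) := by
        filter_upwards [h4] with y hy
        exact Set.indicator_of_mem (h1 y hy) _
      exact ContinuousAt.congr (by fun_prop) h5.symm
  have hdec : ∃ C : ℝ, 0 ≤ C ∧ ∀ x, |B.indicator (fun x => Real.exp (2 * κ * x)) x| * (1 + x ^ 2) ≤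
      C * Real.exp (2 * V * x) := by
    obtain ⟨C, hC, hC'⟩ := exp_bd (a := 2 * (s * (V - κ))) (by linarith)
    refine ⟨C, hC, fun x => ?_⟩
    by_cases hx : x ∈ B
    · rw [Set.indicator_of_mem hx, abs_of_pos (Real.exp_pos _)]
      have h3 := hC' (s * x) (h2 x hx)
      have h4 : 1 + x ^ 2 = 1 + (s * x) ^ 2 := by
        have : (s * x) ^ 2 = (s * s) * x ^ 2 := by ring
        rw [this, hs, one_mul]
      rw [h4]
      have h5 : Real.exp (2 * V * x) =
          Real.exp (2 * κ * x) * Real.exp (2 * (s * (V - κ)) * (s * x)) := by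
        rw [← Real.exp_add]
        congr 1
        have : 2 * (s * (V - κ)) * (s * x) = (s * s) * (2 * (V - κ) * x) := by ring
        rw [this, hs, one_mul]
        ring
      rw [h5]
      calc Real.exp (2 * κ * x) * (1 + (s * x) ^ 2)
          ≤ Real.exp (2 * κ * x) * (C * Real.exp (2 * (s * (V - κ)) * (s * x))) :=
            mul_le_mul_of_nonneg_left h3 (Real.exp_pos _).le
        _ = C * (Real.exp (2 * κ * x) * Real.exp (2 * (s * (V - κ)) * (s * x))) := by ring
    · rw [Set.indicator_of_notMem hx, abs_zero, zero_mul]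
      positivity
  obtain ⟨C, hC, hC'⟩ := hdec
  have key := hL d hd V (fun x => B.indicator (fun x => Real.exp (2 * κ * x)) (x - u)) {u} hmeas ?_
    ⟨1, fun x => hle1 _⟩ ?_
  · have e : ∫ x, Real.exp (-(2 * V * x)) * B.indicator (fun x => Real.exp (2 * κ * x)) (x - u) =
        Real.exp (-(2 * V * u)) * (1 / (2 * (s * (V - κ)))) := by
      rw [← hI, ← integral_indicator hB, ← integral_const_mul]
      have e1 : (fun x => Real.exp (-(2 * V * x)) * B.indicator (fun x => Real.exp (2 * κ * x)) (x - u)) =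
          fun x => (fun y => Real.exp (-(2 * V * (y + u))) * B.indicator (fun x => Real.exp (2 * κ * x)) y) (x - u) := by
        funext x
        simp only [sub_add_cancel]
      rw [e1, integral_sub_right_eq_self (fun y => Real.exp (-(2 * V * (y + u))) *
        B.indicator (fun x => Real.exp (2 * κ * x)) y) u]
      refine integral_congr_ae (Filter.Eventually.of_forall fun x => ?_)
      change Real.exp (-(2 * V * (x + u))) * B.indicator (fun x => Real.exp (2 * κ * x)) x =
        Real.exp (-(2 * V * u)) * B.indicator (fun x => Real.exp (-(2 * (V - κ)) * x)) x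
      by_cases hx : x ∈ B
      · rw [Set.indicator_of_mem hx, Set.indicator_of_mem hx, ← Real.exp_add, ← Real.exp_add]
        congr 1
        ring
      · rw [Set.indicator_of_notMem hx, Set.indicator_of_notMem hx, mul_zero, mul_zero]
    rw [e] at key
    exact key
  · intro x hx
    have hx0 : x - u ∉ ({0} : Finset ℝ) := by
      simp only [Finset.mem_singleton] at hx ⊢
      intro h
      exact hx (by linarith)
    exact ContinuousAt.comp (g := B.indicator (fun x => Real.exp (2 * κ * x))) (f := fun x => x - u)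
      (hcont _ hx0) (by fun_prop)
  · refine ⟨2 * (1 + u ^ 2) * C * Real.exp (-(2 * V * u)), fun x => ?_⟩
    have h3 := hC' (x - u)
    have h4 : 1 + x ^ 2 ≤ 2 * (1 + u ^ 2) * (1 + (x - u) ^ 2) := by
      nlinarith [sq_nonneg (x - 2 * u), sq_nonneg (u * (x - u))]
    have h5 : Real.exp (2 * V * (x - u)) = Real.exp (-(2 * V * u)) * Real.exp (2 * V * x) := by
      rw [← Real.exp_add]; congr 1; ring
    have h6 := abs_nonneg (B.indicator (fun x => Real.exp (2 * κ * x)) (x - u))
    calc |B.indicator (fun x => Real.exp (2 * κ * x)) (x - u)| * (1 + x ^ 2)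
        ≤ |B.indicator (fun x => Real.exp (2 * κ * x)) (x - u)| * (2 * (1 + u ^ 2) * (1 + (x - u) ^ 2)) := by
          gcongr
      _ = 2 * (1 + u ^ 2) * (|B.indicator (fun x => Real.exp (2 * κ * x)) (x - u)| * (1 + (x - u) ^ 2)) := by ring
      _ ≤ 2 * (1 + u ^ 2) * (C * Real.exp (2 * V * (x - u))) := by gcongr
      _ = _ := by rw [h5]; ring

theorem convU {δ T V k u : ℝ} (h0 : 0 < δ) (h1 : δ < 1 / 2) (hT : 0 ≤ T) (B Q : Set ℝ)
    (hQ : MeasurableSet Q)
    (hQB : ∀ t, 0 < mz δ t → (t ∈ Q ↔ Real.log (mz δ t) - V * Real.log (1 / (2 * δ)) - u ∈ B)) :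
    ∫ t in {t : ℝ | t ∈ Set.Icc 0 T ∧ t ∈ Q}, mz δ t ^ (2 * k) =
      (2 * δ) ^ (-(2 * k * V)) * Real.exp (2 * k * u) * ∫ t in (0:ℝ)..T, B.indicator (fun x => Real.exp (2 * k * x))
          (Real.log (mz δ t) - V * Real.log (1 / (2 * δ)) - u) := by
  have e1 : {t : ℝ | t ∈ Set.Icc 0 T ∧ t ∈ Q} = Set.Icc 0 T ∩ Q := rfl
  rw [e1, ← setIntegral_indicator hQ, intervalIntegral.integral_of_le hT,
    ← integral_Icc_eq_integral_Ioc, ← integral_const_mul]
  refine integral_congr_ae (ae_restrict_of_ae ?_)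
  filter_upwards [ae_ne h1] with t ht
  have ht' : 0 < mz δ t := lt_of_le_of_ne (norm_nonneg _) (Ne.symm ht)
  by_cases hq : t ∈ Q
  · rw [Set.indicator_of_mem hq, Set.indicator_of_mem ((hQB t ht').1 hq), pow_eq h0 V k ht']
    have e2 : Real.exp (2 * k * (Real.log (mz δ t) - V * Real.log (1 / (2 * δ)))) = Real.exp (2 * k * u) *
        Real.exp (2 * k * (Real.log (mz δ t) - V * Real.log (1 / (2 * δ)) - u)) := by
      rw [← Real.exp_add]; congr 1; ring
    rw [e2]
    ring
  · rw [Set.indicator_of_notMem hq, Set.indicator_of_notMem fun h => hq ((hQB t ht').2 h),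
      mul_zero]

theorem masterU (hL : S_LD) {d : ℝ → ℝ} (hd : Ad d) (V κ s u : ℝ) (hs : s * s = 1)
    (ha : 0 < s * (V - κ)) (hκ : s * κ ≤ 0) (B : Set ℝ) (hB : MeasurableSet B)
    (h1 : ∀ x, 0 < s * x → x ∈ B) (h2 : ∀ x ∈ B, 0 ≤ s * x)
    (hI : ∫ x in B, Real.exp (-(2 * (V - κ)) * x) = 1 / (2 * (s * (V - κ))))
    (Q : ℝ → Set ℝ) (hQ : ∀ T, d T < 1 / 2 → MeasurableSet (Q T))
    (hQB : ∀ T, 0 < d T → ∀ t, 0 < mz (d T) t →
      (t ∈ Q T ↔ Real.log (mz (d T) t) - V * Real.log (1 / (2 * d T)) - u ∈ B)) :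
    Tendsto (fun T : ℝ => Real.sqrt (Real.pi * Real.log (1 / (2 * d T))) *
      (2 * d T) ^ (2 * κ * V - V ^ 2) * ((1 / T) * ∫ t in {t : ℝ | t ∈ Set.Icc 0 T ∧ t ∈ Q T},
        mz (d T) t ^ (2 * κ))) atTop
      (𝓝 ((aC V).re * Real.exp (2 * (κ - V) * u) / (2 * (s * (V - κ))))) := by
  have key := (genU hL hd V κ s u hs ha hκ B hB h1 h2 hI).mul_const (Real.exp (2 * κ * u))
  have e0 : (aC V).re * (Real.exp (-(2 * V * u)) * (1 / (2 * (s * (V - κ))))) * Real.exp (2 * κ * u) =
      (aC V).re * Real.exp (2 * (κ - V) * u) / (2 * (s * (V - κ))) := by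
    have : Real.exp (2 * (κ - V) * u) = Real.exp (-(2 * V * u)) * Real.exp (2 * κ * u) := by
      rw [← Real.exp_add]; congr 1; ring
    rw [this]; ring
  rw [e0] at key
  refine key.congr' ?_
  have hlt : ∀ᶠ T in atTop, d T < 1 / 2 := hd.t0.eventually_lt_const (by norm_num)
  filter_upwards [hd.pos, hlt, eventually_ge_atTop 0] with T a1 a2 a3
  rw [convU a1 a2 a3 B (Q T) (hQ T a2) (hQB T a1)]
  have e : (2 * d T) ^ (-(V ^ 2)) = (2 * d T) ^ (2 * κ * V - V ^ 2) *
      (2 * d T) ^ (-(2 * κ * V)) := by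
    rw [← Real.rpow_add (by linarith)]
    congr 1
    ring
  rw [e]
  ring

/-- the level `(2δ)^(-V) e^u` -/
theorem levelU {δ : ℝ} (h0 : 0 < δ) (V u : ℝ) :
    (2 * δ) ^ (-V) * Real.exp u = Real.exp (V * Real.log (1 / (2 * δ)) + u) := by
  rw [level h0, Real.exp_add]

/-- the truncated moment at a subcritical level -/
theorem lowU (hL : S_LD) {d : ℝ → ℝ} (hd : Ad d) {k V : ℝ} (u : ℝ) (hk : 0 < k) (hV : V < k) :
    Tendsto (fun T : ℝ => Real.sqrt (Real.pi * Real.log (1 / (2 * d T))) * (2 * d T) ^ (2 * k * V - V ^ 2) *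
      ML k ((2 * d T) ^ (-V) * Real.exp u) (d T) T) atTop
      (𝓝 ((aC V).re * Real.exp (2 * (k - V) * u) / (2 * (k - V)))) := by
  have key := masterU hL hd V k (-1) u (by norm_num) (by linarith) (by linarith) (Set.Iic 0)
    measurableSet_Iic (fun x hx => by rw [Set.mem_Iic]; linarith)
    (fun x hx => by rw [Set.mem_Iic] at hx; linarith) (int_neg (by linarith))
    (fun T => {t | mz (d T) t ≤ (2 * d T) ^ (-V) * Real.exp u})
    (fun T hT => measurableSet_le (mz_meas hT) measurable_const) (fun T h0 t ht => by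
      rw [Set.mem_ofPred_eq, levelU h0, Set.mem_Iic, sub_sub, sub_nonpos, Real.log_le_iff_le_exp ht])
  have e : 2 * (-1 * (V - k)) = 2 * (k - V) := by ring
  rw [e] at key
  exact key

/-- the measure of the set of large values -/
theorem tailU (hL : S_LD) {d : ℝ → ℝ} (hd : Ad d) {V : ℝ} (u : ℝ) (hV : 0 < V) :
    Tendsto (fun T : ℝ => Real.sqrt (Real.pi * Real.log (1 / (2 * d T))) * (2 * d T) ^ (-(V ^ 2)) *
      ((1 / T) * volume.real {t : ℝ | t ∈ Set.Icc 0 T ∧ (2 * d T) ^ (-V) * Real.exp u < mz (d T) t})) atTop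
      (𝓝 ((aC V).re * Real.exp (-(2 * V * u)) / (2 * V))) := by
  have key := masterU hL hd V 0 1 u (by norm_num) (by linarith) (by linarith) (Set.Ioi 0)
    measurableSet_Ioi (fun x hx => by rw [Set.mem_Ioi]; linarith)
    (fun x hx => by rw [Set.mem_Ioi] at hx; linarith) (int_pos (by linarith))
    (fun T => {t | (2 * d T) ^ (-V) * Real.exp u < mz (d T) t})
    (fun T hT => measurableSet_lt measurable_const (mz_meas hT)) (fun T h0 t ht => by
      rw [Set.mem_ofPred_eq, levelU h0, Set.mem_Ioi, sub_sub, sub_pos, Real.lt_log_iff_exp_lt ht])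
  rw [one_mul, sub_zero] at key
  have e1 : 2 * (0 - V) * u = -(2 * V * u) := by ring
  rw [e1] at key
  refine key.congr fun T => ?_
  rw [vol_eq, mul_zero, zero_mul, zero_sub]
  rfl

end Run7.h5.TM
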