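import Pool.Agent.Run7.h5.TM.Gen
import Pool.Agent.Run7.h5.CS.Abs

set_option autoImplicit false

/-!
Trimmed moments (helper5): the least value of a moment outside the sets of given measure.
-/

namespace Run7.h5.TM

open Filter MeasureTheory Topology
open Pool.Agent.N748.MG Pool.Agent.N748.MG.TMC

/-- the trimmed moment -/
noncomputable def trim (k m δ T : ℝ) : ℝ :=
  sInf {r : ℝ | ∃ F : Set ℝ, MeasurableSet F ∧ volume.real (F ∩ Set.Icc 0 T) ≤ m * T ∧
    r = (1 / T) * ∫ t in Set.Icc 0 T \ F, mz δ t ^ (2 * k)}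

/-- the relative measure of the large values -/
noncomputable def tl (c δ T : ℝ) : ℝ := (1 / T) * volume.real {t : ℝ | t ∈ Set.Icc 0 T ∧ c < mz δ t}

lemma mz_nonneg (δ t : ℝ) : 0 ≤ mz δ t := norm_nonneg _

lemma mz_cont {δ : ℝ} (h : δ < 1 / 2) : Continuous (mz δ) := (zc h).norm

lemma int_Icc {δ : ℝ} (h : δ < 1 / 2) {b : ℝ} (hb : 0 ≤ b) (T : ℝ) :
    IntegrableOn (fun t => mz δ t ^ b) (Set.Icc 0 T) :=
  (((mz_cont h).rpow_const fun _ => Or.inr hb).continuousOn).integrableOn_Icc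

lemma fin_Icc (T : ℝ) : volume (Set.Icc (0:ℝ) T) ≠ ⊤ := by
  rw [Real.volume_Icc]; exact ENNReal.ofReal_ne_top

/-- the Neyman-Pearson comparison -/
lemma np {k c δ T : ℝ} (hk : 0 < k) (hc : 0 < c) (hδ : δ < 1 / 2) {F : Set ℝ} (mF : MeasurableSet F) :
    (∫ t in {t : ℝ | t ∈ Set.Icc 0 T ∧ mz δ t ≤ c}, mz δ t ^ (2 * k)) +
      c ^ (2 * k) * (volume.real {t : ℝ | t ∈ Set.Icc 0 T ∧ c < mz δ t} - volume.real (F ∩ Set.Icc 0 T)) ≤
      ∫ t in Set.Icc 0 T \ F, mz δ t ^ (2 * k) := by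
  have hk2 : 0 ≤ 2 * k := by positivity
  have hi := int_Icc hδ hk2 T
  have hfin := fin_Icc T
  have mX := mz_meas hδ
  set A : Set ℝ := {t : ℝ | t ∈ Set.Icc 0 T ∧ mz δ t ≤ c} with hA
  set B : Set ℝ := {t : ℝ | t ∈ Set.Icc 0 T ∧ c < mz δ t} with hB
  have mA : MeasurableSet A := measurableSet_Icc.inter (measurableSet_le mX measurable_const)
  have mB : MeasurableSet B := measurableSet_Icc.inter (measurableSet_lt measurable_const mX)
  have sA : A ⊆ Set.Icc 0 T := fun t h => h.1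
  have sB : B ⊆ Set.Icc 0 T := fun t h => h.1
  have hAB : Disjoint A B := by
    rw [Set.disjoint_left]
    rintro t ⟨_, h1⟩ ⟨_, h2⟩
    linarith
  have e1 : Set.Icc 0 T \ F = (A \ F) ∪ (B \ F) := by
    ext t
    constructor
    · rintro ⟨h1, h2⟩
      rcases le_or_gt (mz δ t) c with h | h
      · exact Or.inl ⟨⟨h1, h⟩, h2⟩
      · exact Or.inr ⟨⟨h1, h⟩, h2⟩
    · rintro (⟨h1, h2⟩ | ⟨h1, h2⟩)
      · exact ⟨h1.1, h2⟩
      · exact ⟨h1.1, h2⟩
  have e2 : ∫ t in Set.Icc 0 T \ F, mz δ t ^ (2 * k) =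
      (∫ t in A \ F, mz δ t ^ (2 * k)) + ∫ t in B \ F, mz δ t ^ (2 * k) := by
    rw [e1]
    exact setIntegral_union (hAB.mono Set.sdiff_subset Set.sdiff_subset) (mB.diff mF)
      (hi.mono_set (Set.sdiff_subset.trans sA)) (hi.mono_set (Set.sdiff_subset.trans sB))
  have e3 : (∫ t in A ∩ F, mz δ t ^ (2 * k)) + (∫ t in A \ F, mz δ t ^ (2 * k)) = ∫ t in A, mz δ t ^ (2 * k) :=
    integral_inter_add_sdiff mF (hi.mono_set sA)
  have hc2 : Real.exp ((2 * k) * Real.log c) = c ^ (2 * k) := by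
    rw [Real.rpow_def_of_pos hc]; ring_nf
  have h1 : ∫ t in A ∩ F, mz δ t ^ (2 * k) ≤ c ^ (2 * k) * volume.real (A ∩ F) := by
    rw [← hc2]
    exact CS.int_le (mz_nonneg δ) (mA.inter mF) (CS.fin_of_sub (Set.inter_subset_left.trans sA) hfin) hk2
      (hi.mono_set (Set.inter_subset_left.trans sA)) (fun t ht => by rw [Real.exp_log hc]; exact ht.1.2)
  have h2 : c ^ (2 * k) * volume.real (B \ F) ≤ ∫ t in B \ F, mz δ t ^ (2 * k) := by
    rw [← hc2]
    exact CS.int_ge (mB.diff mF) (CS.fin_of_sub (Set.sdiff_subset.trans sB) hfin) hk2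
      (hi.mono_set (Set.sdiff_subset.trans sB)) (fun t ht => by rw [Real.exp_log hc]; exact ht.1.2.le)
  have h3 : volume.real (B ∩ F) + volume.real (B \ F) = volume.real B :=
    measureReal_inter_add_sdiff mF (CS.fin_of_sub sB hfin)
  have h4 : volume.real (F ∩ Set.Icc 0 T) = volume.real (A ∩ F) + volume.real (B ∩ F) := by
    rw [← measureReal_union (hAB.mono Set.inter_subset_left Set.inter_subset_left) (mB.inter mF)
      (CS.fin_of_sub (Set.inter_subset_left.trans sA) hfin) (CS.fin_of_sub (Set.inter_subset_left.trans sB) hfin)]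
    congr 1
    ext t
    constructor
    · rintro ⟨h1, h2⟩
      rcases le_or_gt (mz δ t) c with h | h
      · exact Or.inl ⟨⟨h2, h⟩, h1⟩
      · exact Or.inr ⟨⟨h2, h⟩, h1⟩
    · rintro (⟨h1, h2⟩ | ⟨h1, h2⟩)
      · exact ⟨h2, h1.1⟩
      · exact ⟨h2, h1.1⟩
  have h5 : c ^ (2 * k) * (volume.real B - volume.real (F ∩ Set.Icc 0 T)) =
      c ^ (2 * k) * volume.real (B \ F) - c ^ (2 * k) * volume.real (A ∩ F) := by
    rw [h4]
    have : volume.real B = volume.real (B ∩ F) + volume.real (B \ F) := h3.symm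
    rw [this]; ring
  rw [h5, e2]
  linarith

/-- bound for the trimmed moment from below -/
lemma trim_ge {k c m δ T : ℝ} (hk : 0 < k) (hc : 0 < c) (hδ : δ < 1 / 2) (hT : 0 < T) (hm : 0 ≤ m) :
    ML k c δ T + c ^ (2 * k) * (tl c δ T - m) ≤ trim k m δ T := by
  apply le_csInf
  · exact ⟨_, ∅, MeasurableSet.empty, by simp; positivity, rfl⟩
  · rintro r ⟨F, mF, hF, rfl⟩
    have h := np (T := T) hk hc hδ mF
    unfold ML tl
    have h1 : 0 ≤ c ^ (2 * k) := Real.rpow_nonneg hc.le _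
    have h2 : c ^ (2 * k) * ((1 / T) * volume.real {t : ℝ | t ∈ Set.Icc 0 T ∧ c < mz δ t} - m) ≤
        (1 / T) * (c ^ (2 * k) * (volume.real {t : ℝ | t ∈ Set.Icc 0 T ∧ c < mz δ t} -
          volume.real (F ∩ Set.Icc 0 T))) := by
      have h3 : (1 / T) * volume.real (F ∩ Set.Icc 0 T) ≤ m := by
        rw [one_div, inv_mul_le_iff₀ hT]; linarith
      have h4 : (1 / T) * (c ^ (2 * k) * (volume.real {t : ℝ | t ∈ Set.Icc 0 T ∧ c < mz δ t} -
          volume.real (F ∩ Set.Icc 0 T))) =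
          c ^ (2 * k) * ((1 / T) * volume.real {t : ℝ | t ∈ Set.Icc 0 T ∧ c < mz δ t} -
            (1 / T) * volume.real (F ∩ Set.Icc 0 T)) := by ring
      rw [h4]
      apply mul_le_mul_of_nonneg_left _ h1
      linarith
    have h5 : 0 < 1 / T := by positivity
    have h6 := mul_le_mul_of_nonneg_left h h5.le
    rw [mul_add] at h6
    linarith

/-- bound for the trimmed moment from above -/
lemma trim_le {k c m δ T : ℝ} (hδ : δ < 1 / 2) (hT : 0 < T) (hm : tl c δ T ≤ m) :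
    trim k m δ T ≤ ML k c δ T := by
  apply csInf_le
  · refine ⟨0, ?_⟩
    rintro r ⟨F, mF, hF, rfl⟩
    have : 0 ≤ ∫ t in Set.Icc 0 T \ F, mz δ t ^ (2 * k) :=
      setIntegral_nonneg_of_ae (Eventually.of_forall fun t => Real.rpow_nonneg (mz_nonneg δ t) _)
    positivity
  · have mX := mz_meas hδ
    refine ⟨{t : ℝ | c < mz δ t}, measurableSet_lt measurable_const mX, ?_, ?_⟩
    · have e : {t : ℝ | c < mz δ t} ∩ Set.Icc 0 T = {t : ℝ | t ∈ Set.Icc 0 T ∧ c < mz δ t} := by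
        ext t
        exact And.comm
      rw [e]
      unfold tl at hm
      rw [one_div, inv_mul_le_iff₀ hT] at hm
      linarith
    · unfold ML
      congr 3
      ext t
      constructor
      · rintro ⟨h1, h2⟩
        exact ⟨h1, fun h3 => absurd h3 (not_lt.mpr h2)⟩
      · rintro ⟨h1, h2⟩
        exact ⟨h1, not_lt.mp h2⟩

/-- squeezing -/
lemma sq {f : ℝ → ℝ} {l : ℝ → ℝ} {x : ℝ} (hl : ContinuousAt l x)
    (hlo : ∀ y < x, ∃ g : ℝ → ℝ, (∀ᶠ T in atTop, g T ≤ f T) ∧ Tendsto g atTop (𝓝 (l y)))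
    (hup : ∀ y > x, ∃ g : ℝ → ℝ, (∀ᶠ T in atTop, f T ≤ g T) ∧ Tendsto g atTop (𝓝 (l y))) :
    Tendsto f atTop (𝓝 (l x)) := by
  rw [tendsto_order]
  constructor
  · intro a ha
    have h1 : ∀ᶠ y in 𝓝 x, a < l y := hl.eventually (lt_mem_nhds ha)
    have h2 : ∀ᶠ y in 𝓝[<] x, a < l y := h1.filter_mono nhdsWithin_le_nhds
    obtain ⟨y, hy1, hy2⟩ := (h2.and self_mem_nhdsWithin).exists
    obtain ⟨g, g1, g2⟩ := hlo y hy2
    filter_upwards [g1, g2.eventually (lt_mem_nhds hy1)] with T h3 h4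
    linarith
  · intro a ha
    have h1 : ∀ᶠ y in 𝓝 x, l y < a := hl.eventually (gt_mem_nhds ha)
    have h2 : ∀ᶠ y in 𝓝[>] x, l y < a := h1.filter_mono nhdsWithin_le_nhds
    obtain ⟨y, hy1, hy2⟩ := (h2.and self_mem_nhdsWithin).exists
    obtain ⟨g, g1, g2⟩ := hup y hy2
    filter_upwards [g1, g2.eventually (gt_mem_nhds hy1)] with T h3 h4
    linarith

lemma L_top {d : ℝ → ℝ} (hd : Ad d) : Tendsto (fun T => Real.log (1 / (2 * d T))) atTop atTop := by
  have h1 : Tendsto (fun T => 2 * d T) atTop (𝓝[>] 0) := by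
    rw [tendsto_nhdsWithin_iff]
    constructor
    · have := hd.t0.const_mul 2
      simpa using this
    · filter_upwards [hd.pos] with T hT
      exact Set.mem_Ioi.mpr (by linarith)
  have h2 := Real.tendsto_log_atTop.comp (tendsto_inv_nhdsGT_zero.comp h1)
  refine h2.congr fun T => ?_
  simp only [Function.comp, one_div]

/-- powers as exponentials -/
lemma pw_exp {δ : ℝ} (h0 : 0 < δ) (e : ℝ) : (2 * δ) ^ e = Real.exp (-(e * Real.log (1 / (2 * δ)))) := by
  have := level h0 (-e)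
  rw [neg_neg] at this
  rw [this]; congr 1; ring

/-- the measure of the large values beyond a level is negligible -/
lemma tl_small (hU : S_UT) {d : ℝ → ℝ} (hd : Ad d) {V : ℝ} (hV : 0 < V) (f : ℝ → ℝ)
    (hf2 : Tendsto (fun T => V ^ 2 * Real.log (1 / (2 * d T)) - f T) atTop atTop) :
    ∀ᶠ T in atTop, tl ((2 * d T) ^ (-V)) (d T) T ≤ 1 / 2 * Real.exp (-(f T)) := by
  have h := hU d hd V hV
  set K : ℝ := (aC V).re / (2 * V) with hK
  have h1 : ∀ᶠ T in atTop, Real.sqrt (Real.pi * Real.log (1 / (2 * d T))) * (2 * d T) ^ (-(V ^ 2)) *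
    ((1 / T) * (volume {t : ℝ | 0 ≤ t ∧ t ≤ T ∧ (2 * d T) ^ (-V) < mz (d T) t}).toReal) < |K| + 1 :=
    h.eventually (gt_mem_nhds (by linarith [le_abs_self K]))
  have h2 : ∀ᶠ T in atTop, 2 * (|K| + 1) ≤ Real.exp (V ^ 2 * Real.log (1 / (2 * d T)) - f T) :=
    (Real.tendsto_exp_atTop.comp hf2).eventually_ge_atTop _
  filter_upwards [h1, h2, (L_top hd).eventually_ge_atTop 1, hd.pos, eventually_gt_atTop (0:ℝ)] with T h1 h2 h3 h4 hT
  have e1 : {t : ℝ | 0 ≤ t ∧ t ≤ T ∧ (2 * d T) ^ (-V) < mz (d T) t} =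
      {t : ℝ | t ∈ Set.Icc 0 T ∧ (2 * d T) ^ (-V) < mz (d T) t} := by
    ext t
    constructor
    · rintro ⟨a, b, c⟩; exact ⟨⟨a, b⟩, c⟩
    · rintro ⟨⟨a, b⟩, c⟩; exact ⟨a, b, c⟩
  rw [e1] at h1
  have h5 : 1 ≤ Real.sqrt (Real.pi * Real.log (1 / (2 * d T))) := by
    rw [Real.one_le_sqrt]
    nlinarith [Real.pi_gt_three]
  set q : ℝ := (1 / T) * (volume {t : ℝ | t ∈ Set.Icc 0 T ∧ (2 * d T) ^ (-V) < mz (d T) t}).toReal with hq
  have hq0 : 0 ≤ q := by positivity
  have e2 : tl ((2 * d T) ^ (-V)) (d T) T = q := rfl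
  rw [e2]
  have e3 : (2 * d T) ^ (-(V ^ 2)) = Real.exp (V ^ 2 * Real.log (1 / (2 * d T))) := by
    rw [pw_exp h4]; congr 1; ring
  rw [e3] at h1
  have h6 : Real.exp (V ^ 2 * Real.log (1 / (2 * d T))) * q ≤ |K| + 1 := by
    have h7 : 0 ≤ Real.exp (V ^ 2 * Real.log (1 / (2 * d T))) * q := by positivity
    nlinarith
  have e4 : Real.exp (V ^ 2 * Real.log (1 / (2 * d T))) =
      Real.exp (V ^ 2 * Real.log (1 / (2 * d T)) - f T) * Real.exp (f T) := by
    rw [← Real.exp_add]; congr 1; ring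
  rw [e4] at h6
  have h8 : 0 < Real.exp (f T) := Real.exp_pos _
  have h9 : 2 * (|K| + 1) * (Real.exp (f T) * q) ≤ |K| + 1 := by
    have : 0 ≤ Real.exp (f T) * q := by positivity
    calc 2 * (|K| + 1) * (Real.exp (f T) * q) ≤
        Real.exp (V ^ 2 * Real.log (1 / (2 * d T)) - f T) * (Real.exp (f T) * q) := by gcongr
      _ ≤ |K| + 1 := by rw [← mul_assoc]; exact h6
  have h10 : 0 < |K| + 1 := by positivity
  have h11 : Real.exp (f T) * q ≤ 1 / 2 := by
    by_contra hcon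
    push Not at hcon
    nlinarith
  rw [Real.exp_neg, ← div_eq_mul_inv, le_div_iff₀ h8]
  linarith

/-- (1) trimming by very small sets -/
theorem part1 (h1 : S_TM1) (hU : S_UT) {d : ℝ → ℝ} (hd : Ad d) {k D : ℝ} (hk : 0 < k) (hD : k ^ 2 < D) :
    Tendsto (fun T => (2 * d T) ^ (k ^ 2) * trim k ((2 * d T) ^ D) (d T) T) atTop (𝓝 (aC k).re) := by
  have hlt : ∀ᶠ T in atTop, d T < 1 / 2 := hd.t0.eventually_lt_const (by norm_num)
  have hL := L_top hd
  refine sq (l := fun _ => (aC k).re) (x := 0) continuousAt_const (fun y _ => ?_) (fun y _ => ?_)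
  · set V : ℝ := (D + 3 * k ^ 2) / (4 * k) with hV
    have hVk : k < V := by
      rw [hV, lt_div_iff₀ (by positivity)]; nlinarith
    have hVD : 2 * k * V < D + k ^ 2 := by
      have : 2 * k * V = (D + 3 * k ^ 2) / 2 := by rw [hV]; field_simp; ring
      rw [this]; linarith
    refine ⟨fun T => (2 * d T) ^ (k ^ 2) * ML k ((2 * d T) ^ (-V)) (d T) T -
      Real.exp (-((D + k ^ 2 - 2 * k * V) * Real.log (1 / (2 * d T)))), ?_, ?_⟩
    · filter_upwards [hlt, hd.pos, eventually_gt_atTop (0:ℝ)] with T a1 a2 a3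
      have hp : 0 < (2 * d T) ^ (k ^ 2) := Real.rpow_pos_of_pos (by linarith) _
      have hc : 0 < (2 * d T) ^ (-V) := Real.rpow_pos_of_pos (by linarith) _
      have hm : 0 < (2 * d T) ^ D := Real.rpow_pos_of_pos (by linarith) _
      have h2 := trim_ge (k := k) (m := (2 * d T) ^ D) hk hc a1 a3 hm.le
      have h3 : 0 ≤ tl ((2 * d T) ^ (-V)) (d T) T := by unfold tl; positivity
      have h4 : 0 ≤ ((2 * d T) ^ (-V)) ^ (2 * k) := Real.rpow_nonneg hc.le _
      have h5 : (2 * d T) ^ (k ^ 2) * (((2 * d T) ^ (-V)) ^ (2 * k) * (2 * d T) ^ D) =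
          Real.exp (-((D + k ^ 2 - 2 * k * V) * Real.log (1 / (2 * d T)))) := by
        rw [← Real.rpow_mul (by linarith), ← Real.rpow_add (by linarith), ← Real.rpow_add (by linarith),
          pw_exp a2]
        congr 1
        ring
      have h6 : ML k ((2 * d T) ^ (-V)) (d T) T - ((2 * d T) ^ (-V)) ^ (2 * k) * (2 * d T) ^ D ≤
          trim k ((2 * d T) ^ D) (d T) T := by
        nlinarith [mul_nonneg h4 h3]
      have h7 := mul_le_mul_of_nonneg_left h6 hp.le
      rw [mul_sub, h5] at h7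
      exact h7
    · have h2 := h1 d hd k V hk hVk
      have h3 : Tendsto (fun T => Real.exp (-((D + k ^ 2 - 2 * k * V) * Real.log (1 / (2 * d T))))) atTop (𝓝 0) :=
        Real.tendsto_exp_neg_atTop_nhds_zero.comp (hL.const_mul_atTop (by linarith))
      have := h2.sub h3
      simpa using this
  · have hD0 : 0 ≤ D := by nlinarith
    set V : ℝ := Real.sqrt D + 1 with hV
    have hkD : k < Real.sqrt D := Real.lt_sqrt_of_sq_lt hD
    have hV0 : 0 < V := by positivity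
    have hVD : D < V ^ 2 := by
      rw [hV]
      have := Real.sq_sqrt hD0
      nlinarith [Real.sqrt_nonneg D]
    refine ⟨fun T => (2 * d T) ^ (k ^ 2) * ML k ((2 * d T) ^ (-V)) (d T) T, ?_, h1 d hd k V hk (by linarith)⟩
    have h2 := tl_small hU hd hV0 (fun T => D * Real.log (1 / (2 * d T))) (by
        have : (fun T => V ^ 2 * Real.log (1 / (2 * d T)) - D * Real.log (1 / (2 * d T))) =
          fun T => (V ^ 2 - D) * Real.log (1 / (2 * d T)) := by funext T; ring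
        rw [this]
        exact hL.const_mul_atTop (by linarith))
    filter_upwards [hlt, hd.pos, eventually_gt_atTop (0:ℝ), h2] with T a1 a2 a3 a4
    have hp : 0 < (2 * d T) ^ (k ^ 2) := Real.rpow_pos_of_pos (by linarith) _
    apply mul_le_mul_of_nonneg_left _ hp.le
    apply trim_le a1 a3
    rw [pw_exp a2 D]
    have : 0 < Real.exp (-(D * Real.log (1 / (2 * d T)))) := Real.exp_pos _
    linarith

end Run7.h5.TM
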