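import Pool.Agent.Run7.h5.TM.Trim

set_option autoImplicit false

/-!
Trimmed moments (helper5): the critical window and the subcritical levels.
-/

namespace Run7.h5.TM

open Filter MeasureTheory Topology
open Pool.Agent.N748.MG Pool.Agent.N748.MG.TMC

lemma phi_cont : Continuous Phi := by
  have e : Phi = fun x => ProbabilityTheory.cdf (ProbabilityTheory.gaussianReal 0 1) x := by
    funext x
    rw [ProbabilityTheory.cdf_eq_real]
    rfl
  rw [e, continuous_iff_continuousAt]
  intro x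
  set f := ProbabilityTheory.cdf (ProbabilityTheory.gaussianReal 0 1) with hf
  rw [f.mono.continuousAt_iff_leftLim_eq_rightLim]
  have h1 : Function.rightLim f x = f x := f.rightLim_eq x
  have h2 := f.measure_singleton x
  rw [hf, ProbabilityTheory.measure_cdf, ← hf] at h2
  have h3 : (ProbabilityTheory.gaussianReal 0 1) {x} = 0 := by
    haveI := ProbabilityTheory.noAtoms_gaussianReal (μ := 0) (v := 1) one_ne_zero
    exact measure_singleton x
  rw [h3] at h2
  have h4 : f x - Function.leftLim f x ≤ 0 := ENNReal.ofReal_eq_zero.mp h2.symm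
  have h5 : Function.leftLim f x ≤ f x := f.mono.leftLim_le le_rfl
  rw [h1]
  linarith

/-- the measure of the large values in the critical window -/
lemma tl_window (h1 : S_TM1) (hU : S_UT) {d : ℝ → ℝ} (hd : Ad d) {k x y : ℝ} (hk : 0 < k) (hxy : x < y) :
    ∀ᶠ T in atTop, tl ((2 * d T) ^ (-k) * Real.exp (y * Real.sqrt (Real.log (1 / (2 * d T)) / 2))) (d T) T ≤
      (2 * d T) ^ (k ^ 2) * Real.exp (-(2 * k * x * Real.sqrt (Real.log (1 / (2 * d T)) / 2))) := by
  have hlt : ∀ᶠ T in atTop, d T < 1 / 2 := hd.t0.eventually_lt_const (by norm_num)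
  have hL := L_top hd
  have hs : Tendsto (fun T => Real.sqrt (Real.log (1 / (2 * d T)) / 2)) atTop atTop :=
    Real.tendsto_sqrt_atTop.comp (hL.atTop_div_const (by norm_num))
  set K : ℝ := (aC k).re with hK
  have h2 : ∀ᶠ T in atTop, (2 * d T) ^ (k ^ 2) * ML k ((2 * d T) ^ (-(k + 1))) (d T) T < |K| + 1 :=
    (h1 d hd k (k + 1) hk (by linarith)).eventually (gt_mem_nhds (by linarith [le_abs_self K]))
  have h3 : ∀ᶠ T in atTop, 2 * (|K| + 1) ≤
      Real.exp (2 * k * (y - x) * Real.sqrt (Real.log (1 / (2 * d T)) / 2)) :=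
    (Real.tendsto_exp_atTop.comp (hs.const_mul_atTop (by nlinarith))).eventually_ge_atTop _
  have h4 := tl_small hU hd (V := k + 1) (by linarith)
    (fun T => k ^ 2 * Real.log (1 / (2 * d T)) + 2 * k * x * Real.sqrt (Real.log (1 / (2 * d T)) / 2)) (by
      have e : (fun T => (k + 1) ^ 2 * Real.log (1 / (2 * d T)) -
          (k ^ 2 * Real.log (1 / (2 * d T)) + 2 * k * x * Real.sqrt (Real.log (1 / (2 * d T)) / 2))) =
          fun T => (2 * k + 1) * Real.log (1 / (2 * d T)) -
            2 * k * x * Real.sqrt (Real.log (1 / (2 * d T)) / 2) := by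
        funext T; ring
      rw [e]
      refine tendsto_atTop_mono' atTop ?_ hL
      filter_upwards [hs.eventually_ge_atTop |x|, hL.eventually_ge_atTop 0] with T b1 b2
      set s := Real.sqrt (Real.log (1 / (2 * d T)) / 2) with hsd
      have hss : s * s = Real.log (1 / (2 * d T)) / 2 := Real.mul_self_sqrt (by linarith)
      have hs0 : 0 ≤ s := Real.sqrt_nonneg _
      have b3 : x * s ≤ s * s := by
        have := le_abs_self x
        nlinarith
      nlinarith)
  filter_upwards [hlt, hd.pos, eventually_gt_atTop (0:ℝ), h2, h3, h4, hs.eventually_ge_atTop |y|,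
    hL.eventually_ge_atTop 0] with T a1 a2 a3 a4 a5 a6 a7 a8
  set L := Real.log (1 / (2 * d T)) with hLd
  set s := Real.sqrt (L / 2) with hsd
  have hss : s * s = L / 2 := Real.mul_self_sqrt (by linarith)
  have hs0 : 0 ≤ s := Real.sqrt_nonneg _
  set c : ℝ := (2 * d T) ^ (-k) * Real.exp (y * s) with hc
  set c' : ℝ := (2 * d T) ^ (-(k + 1)) with hc'
  have hc0 : 0 < c := mul_pos (Real.rpow_pos_of_pos (by linarith) _) (Real.exp_pos _)
  have hc'0 : 0 < c' := Real.rpow_pos_of_pos (by linarith) _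
  have ec : c = Real.exp (k * L + y * s) := by rw [hc, levelU a2]
  have mX := mz_meas a1
  have hfin := fin_Icc T
  -- the measure between the levels
  set A : Set ℝ := {t : ℝ | t ∈ Set.Icc 0 T ∧ mz (d T) t ≤ c'} ∩ {t | c ≤ mz (d T) t} with hA
  have sA0 : {t : ℝ | t ∈ Set.Icc 0 T ∧ mz (d T) t ≤ c'} ⊆ Set.Icc 0 T := fun t h => h.1
  have mA0 : MeasurableSet {t : ℝ | t ∈ Set.Icc 0 T ∧ mz (d T) t ≤ c'} :=
    measurableSet_Icc.inter (measurableSet_le mX measurable_const)
  have mA : MeasurableSet A := mA0.inter (measurableSet_le measurable_const mX)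
  have hk2 : 0 ≤ 2 * k := by positivity
  have hi := int_Icc a1 hk2 T
  have b1 : Real.exp (2 * k * (k * L + y * s)) * volume.real A ≤ ∫ t in A, mz (d T) t ^ (2 * k) :=
    CS.int_ge mA (CS.fin_of_sub (Set.inter_subset_left.trans sA0) hfin) hk2
      (hi.mono_set (Set.inter_subset_left.trans sA0)) (fun t ht => by rw [← ec]; exact ht.2)
  have b2 : ∫ t in A, mz (d T) t ^ (2 * k) ≤ T * ML k c' (d T) T := by
    refine (CS.int_mono (mz_nonneg _) (hi.mono_set sA0) Set.inter_subset_left).trans (le_of_eq ?_)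
    unfold ML
    field_simp
  have b3 : volume.real {t : ℝ | t ∈ Set.Icc 0 T ∧ c < mz (d T) t} ≤ volume.real A +
      volume.real {t : ℝ | t ∈ Set.Icc 0 T ∧ c' < mz (d T) t} := by
    refine le_trans (measureReal_mono ?_ ?_) (measureReal_union_le _ _)
    · rintro t ⟨h1, h2⟩
      rcases le_or_gt (mz (d T) t) c' with h | h
      · exact Or.inl ⟨⟨h1, h⟩, h2.le⟩
      · exact Or.inr ⟨h1, h⟩
    · exact CS.fin_of_sub (Set.union_subset (Set.inter_subset_left.trans sA0) (fun t h => h.1)) hfin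
  have b4 : tl c (d T) T ≤ (1 / T) * volume.real A + tl c' (d T) T := by
    unfold tl
    rw [← mul_add]
    gcongr
  have em : (2 * d T) ^ (k ^ 2) * Real.exp (-(2 * k * x * s)) = Real.exp (-(k ^ 2 * L + 2 * k * x * s)) := by
    rw [pw_exp a2, ← Real.exp_add]; congr 1; ring
  rw [em]
  set m : ℝ := Real.exp (-(k ^ 2 * L + 2 * k * x * s)) with hm
  have hm0 : 0 < m := Real.exp_pos _
  have b5 : (1 / T) * volume.real A ≤ 1 / 2 * m := by
    have b6 : Real.exp (2 * k * (k * L + y * s)) * ((1 / T) * volume.real A) ≤ ML k c' (d T) T := by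
      have : Real.exp (2 * k * (k * L + y * s)) * ((1 / T) * volume.real A) =
          (1 / T) * (Real.exp (2 * k * (k * L + y * s)) * volume.real A) := by ring
      rw [this, one_div, inv_mul_le_iff₀ a3]
      linarith
    have b7 : Real.exp (-(k ^ 2 * L)) * ML k c' (d T) T ≤ |K| + 1 := by
      rw [pw_exp a2] at a4
      exact a4.le
    have b8 : Real.exp (-(k ^ 2 * L)) * (Real.exp (2 * k * (k * L + y * s)) * ((1 / T) * volume.real A)) ≤ |K| + 1 :=
      (mul_le_mul_of_nonneg_left b6 (Real.exp_pos _).le).trans b7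
    have b9 : Real.exp (-(k ^ 2 * L)) * (Real.exp (2 * k * (k * L + y * s)) * ((1 / T) * volume.real A)) =
        Real.exp (2 * k * (y - x) * s) * (m⁻¹ * ((1 / T) * volume.real A)) := by
      have : Real.exp (-(k ^ 2 * L)) * Real.exp (2 * k * (k * L + y * s)) =
          Real.exp (2 * k * (y - x) * s) * m⁻¹ := by
        rw [hm, ← Real.exp_neg, ← Real.exp_add, ← Real.exp_add]; congr 1; ring
      calc _ = (Real.exp (-(k ^ 2 * L)) * Real.exp (2 * k * (k * L + y * s))) * ((1 / T) * volume.real A) := by ring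
        _ = _ := by rw [this]; ring
    rw [b9] at b8
    have hq : 0 ≤ m⁻¹ * ((1 / T) * volume.real A) := by positivity
    have b10 : 2 * (|K| + 1) * (m⁻¹ * ((1 / T) * volume.real A)) ≤ |K| + 1 :=
      (mul_le_mul_of_nonneg_right a5 hq).trans b8
    have hK0 : 0 < |K| + 1 := by positivity
    have b11 : m⁻¹ * ((1 / T) * volume.real A) ≤ 1 / 2 := by
      by_contra hcon
      push Not at hcon
      nlinarith
    rw [inv_mul_le_iff₀ hm0] at b11
    linarith
  have b12 : tl c' (d T) T ≤ 1 / 2 * m := a6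
  linarith

/-- (2) the critical window -/
theorem part2 (h1 : S_TM1) (h2 : S_TM2) (hU : S_UT) {d : ℝ → ℝ} (hd : Ad d) {k : ℝ} (x : ℝ) (hk : 0 < k) :
    Tendsto (fun T => (2 * d T) ^ (k ^ 2) * trim k ((2 * d T) ^ (k ^ 2) *
      Real.exp (-(2 * k * x * Real.sqrt (Real.log (1 / (2 * d T)) / 2)))) (d T) T) atTop (𝓝 ((aC k).re * Phi x)) := by
  have hlt : ∀ᶠ T in atTop, d T < 1 / 2 := hd.t0.eventually_lt_const (by norm_num)
  have hL := L_top hd
  have hs : Tendsto (fun T => Real.sqrt (Real.log (1 / (2 * d T)) / 2)) atTop atTop :=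
    Real.tendsto_sqrt_atTop.comp (hL.atTop_div_const (by norm_num))
  refine sq (l := fun x => (aC k).re * Phi x) (phi_cont.continuousAt.const_mul _) (fun y hy => ?_) (fun y hy => ?_)
  · refine ⟨fun T => (2 * d T) ^ (k ^ 2) *
      ML k ((2 * d T) ^ (-k) * Real.exp (y * Real.sqrt (Real.log (1 / (2 * d T)) / 2))) (d T) T -
      Real.exp (-((2 * k * (x - y)) * Real.sqrt (Real.log (1 / (2 * d T)) / 2))), ?_, ?_⟩
    · filter_upwards [hlt, hd.pos, eventually_gt_atTop (0:ℝ)] with T a1 a2 a3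
      set L := Real.log (1 / (2 * d T)) with hLd
      set s := Real.sqrt (L / 2) with hsd
      have hp : 0 < (2 * d T) ^ (k ^ 2) := Real.rpow_pos_of_pos (by linarith) _
      set c : ℝ := (2 * d T) ^ (-k) * Real.exp (y * s) with hc
      have hc0 : 0 < c := mul_pos (Real.rpow_pos_of_pos (by linarith) _) (Real.exp_pos _)
      set m : ℝ := (2 * d T) ^ (k ^ 2) * Real.exp (-(2 * k * x * s)) with hm
      have hm0 : 0 < m := by positivity
      have b2 := trim_ge (k := k) (m := m) hk hc0 a1 a3 hm0.le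
      have b3 : 0 ≤ tl c (d T) T := by unfold tl; positivity
      have b4 : 0 ≤ c ^ (2 * k) := Real.rpow_nonneg hc0.le _
      have b5 : (2 * d T) ^ (k ^ 2) * (c ^ (2 * k) * m) = Real.exp (-((2 * k * (x - y)) * s)) := by
        have ec : c = Real.exp (k * L + y * s) := by rw [hc, levelU a2]
        rw [hm, ec, CS.exp_rpow, pw_exp a2, ← Real.exp_add, ← Real.exp_add, ← Real.exp_add]
        congr 1
        ring
      have b6 : ML k c (d T) T - c ^ (2 * k) * m ≤ trim k m (d T) T := by
        nlinarith [mul_nonneg b4 b3]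
      have b7 := mul_le_mul_of_nonneg_left b6 hp.le
      rw [mul_sub, b5] at b7
      exact b7
    · have b2 := h2 d hd k y hk
      have b3 : Tendsto (fun T => Real.exp (-((2 * k * (x - y)) * Real.sqrt (Real.log (1 / (2 * d T)) / 2))))
          atTop (𝓝 0) :=
        Real.tendsto_exp_neg_atTop_nhds_zero.comp (hs.const_mul_atTop (by nlinarith))
      have := b2.sub b3
      simpa using this
  · refine ⟨fun T => (2 * d T) ^ (k ^ 2) *
      ML k ((2 * d T) ^ (-k) * Real.exp (y * Real.sqrt (Real.log (1 / (2 * d T)) / 2))) (d T) T, ?_,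
      h2 d hd k y hk⟩
    filter_upwards [hlt, hd.pos, eventually_gt_atTop (0:ℝ), tl_window h1 hU hd hk hy] with T a1 a2 a3 a4
    have hp : 0 < (2 * d T) ^ (k ^ 2) := Real.rpow_pos_of_pos (by linarith) _
    exact mul_le_mul_of_nonneg_left (trim_le a1 a3 a4) hp.le

/-- (3) subcritical scales -/
theorem part3 (hLD : S_LD) {d : ℝ → ℝ} (hd : Ad d) {k V lam : ℝ} (hV : 0 < V) (hVk : V < k) (hlam : 0 < lam)
    (hpos : 0 < (aC V).re) :
    Tendsto (fun T => Real.sqrt (Real.pi * Real.log (1 / (2 * d T))) * (2 * d T) ^ (2 * k * V - V ^ 2) *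
      trim k (lam * ((aC V).re * (2 * d T) ^ (V ^ 2) /
        (2 * V * Real.sqrt (Real.pi * Real.log (1 / (2 * d T)))))) (d T) T) atTop
      (𝓝 ((aC V).re / (2 * (k - V)) * lam ^ (-((k - V) / V)))) := by
  have hlt : ∀ᶠ T in atTop, d T < 1 / 2 := hd.t0.eventually_lt_const (by norm_num)
  have hL := L_top hd
  have hk : 0 < k := hV.trans hVk
  set a : ℝ := (aC V).re with ha
  set u₀ : ℝ := -(Real.log lam / (2 * V)) with hu₀
  have e0 : a / (2 * (k - V)) * lam ^ (-((k - V) / V)) = a * Real.exp (2 * (k - V) * u₀) / (2 * (k - V)) := by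
    have : lam ^ (-((k - V) / V)) = Real.exp (2 * (k - V) * u₀) := by
      rw [Real.rpow_def_of_pos hlam]
      congr 1
      rw [hu₀]
      field_simp
    rw [this]; ring
  have e1 : Real.exp (-(2 * V * u₀)) = lam := by
    have : -(2 * V * u₀) = Real.log lam := by rw [hu₀]; field_simp
    rw [this, Real.exp_log hlam]
  rw [e0]
  -- the normalised measures
  have hN : ∀ᶠ T in atTop, 0 < Real.sqrt (Real.pi * Real.log (1 / (2 * d T))) * (2 * d T) ^ (-(V ^ 2)) ∧
      Real.sqrt (Real.pi * Real.log (1 / (2 * d T))) * (2 * d T) ^ (-(V ^ 2)) *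
        (lam * (a * (2 * d T) ^ (V ^ 2) / (2 * V * Real.sqrt (Real.pi * Real.log (1 / (2 * d T)))))) =
      a * lam / (2 * V) := by
    filter_upwards [hd.pos, hL.eventually_gt_atTop 0] with T a2 a3
    have h3 : 0 < Real.sqrt (Real.pi * Real.log (1 / (2 * d T))) := Real.sqrt_pos.mpr (by positivity)
    have h4 : 0 < (2 * d T) ^ (-(V ^ 2)) := Real.rpow_pos_of_pos (by linarith) _
    refine ⟨by positivity, ?_⟩
    have h5 : (2 * d T) ^ (-(V ^ 2)) * (2 * d T) ^ (V ^ 2) = 1 := by
      rw [← Real.rpow_add (by linarith)]; simp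
    calc _ = ((2 * d T) ^ (-(V ^ 2)) * (2 * d T) ^ (V ^ 2)) *
        (Real.sqrt (Real.pi * Real.log (1 / (2 * d T))) / Real.sqrt (Real.pi * Real.log (1 / (2 * d T)))) *
          (a * lam / (2 * V)) := by ring
      _ = _ := by rw [h5, div_self h3.ne']; ring
  refine sq (l := fun u => a * Real.exp (2 * (k - V) * u) / (2 * (k - V))) (by
    have : Continuous fun u : ℝ => a * Real.exp (2 * (k - V) * u) / (2 * (k - V)) := by fun_prop
    exact this.continuousAt) (fun u hu => ?_) (fun u hu => ?_)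
  · refine ⟨fun T => Real.sqrt (Real.pi * Real.log (1 / (2 * d T))) * (2 * d T) ^ (2 * k * V - V ^ 2) *
      ML k ((2 * d T) ^ (-V) * Real.exp u) (d T) T, ?_, lowU hLD hd u hk hVk⟩
    have h2 : a * lam / (2 * V) < a * Real.exp (-(2 * V * u)) / (2 * V) := by
      have : lam < Real.exp (-(2 * V * u)) := by
        rw [← e1]
        apply Real.exp_lt_exp.mpr
        nlinarith
      gcongr
    have h3 := (tailU hLD hd u hV).eventually (lt_mem_nhds h2)
    filter_upwards [hlt, hd.pos, eventually_gt_atTop (0:ℝ), hN, h3, hL.eventually_gt_atTop 0] with T a1 a2 a3 a4 a5 a6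
    obtain ⟨a7, a8⟩ := a4
    set c : ℝ := (2 * d T) ^ (-V) * Real.exp u with hc
    have hc0 : 0 < c := mul_pos (Real.rpow_pos_of_pos (by linarith) _) (Real.exp_pos _)
    set m : ℝ := lam * (a * (2 * d T) ^ (V ^ 2) / (2 * V * Real.sqrt (Real.pi * Real.log (1 / (2 * d T))))) with hm
    have hm0 : 0 ≤ m := by
      have : 0 < (2 * d T) ^ (V ^ 2) := Real.rpow_pos_of_pos (by linarith) _
      positivity
    have b1 : m ≤ tl c (d T) T := by
      have : Real.sqrt (Real.pi * Real.log (1 / (2 * d T))) * (2 * d T) ^ (-(V ^ 2)) * m <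
          Real.sqrt (Real.pi * Real.log (1 / (2 * d T))) * (2 * d T) ^ (-(V ^ 2)) * tl c (d T) T := by
        rw [a8]; exact a5
      exact (lt_of_mul_lt_mul_left this a7.le).le
    have b2 := trim_ge (k := k) (m := m) hk hc0 a1 a3 hm0
    have b4 : 0 ≤ c ^ (2 * k) := Real.rpow_nonneg hc0.le _
    have b5 : ML k c (d T) T ≤ trim k m (d T) T := by
      nlinarith [mul_nonneg b4 (sub_nonneg.mpr b1)]
    have hp : 0 ≤ Real.sqrt (Real.pi * Real.log (1 / (2 * d T))) * (2 * d T) ^ (2 * k * V - V ^ 2) := by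
      have : 0 < (2 * d T) ^ (2 * k * V - V ^ 2) := Real.rpow_pos_of_pos (by linarith) _
      positivity
    exact mul_le_mul_of_nonneg_left b5 hp
  · refine ⟨fun T => Real.sqrt (Real.pi * Real.log (1 / (2 * d T))) * (2 * d T) ^ (2 * k * V - V ^ 2) *
      ML k ((2 * d T) ^ (-V) * Real.exp u) (d T) T, ?_, lowU hLD hd u hk hVk⟩
    have h2 : a * Real.exp (-(2 * V * u)) / (2 * V) < a * lam / (2 * V) := by
      have : Real.exp (-(2 * V * u)) < lam := by
        rw [← e1]
        apply Real.exp_lt_exp.mpr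
        nlinarith
      gcongr
    have h3 := (tailU hLD hd u hV).eventually (gt_mem_nhds h2)
    filter_upwards [hlt, hd.pos, eventually_gt_atTop (0:ℝ), hN, h3, hL.eventually_gt_atTop 0] with T a1 a2 a3 a4 a5 a6
    obtain ⟨a7, a8⟩ := a4
    set c : ℝ := (2 * d T) ^ (-V) * Real.exp u with hc
    set m : ℝ := lam * (a * (2 * d T) ^ (V ^ 2) / (2 * V * Real.sqrt (Real.pi * Real.log (1 / (2 * d T))))) with hm
    have b1 : tl c (d T) T ≤ m := by
      have : Real.sqrt (Real.pi * Real.log (1 / (2 * d T))) * (2 * d T) ^ (-(V ^ 2)) * tl c (d T) T <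
          Real.sqrt (Real.pi * Real.log (1 / (2 * d T))) * (2 * d T) ^ (-(V ^ 2)) * m := by
        rw [a8]; exact a5
      exact (lt_of_mul_lt_mul_left this a7.le).le
    have hp : 0 ≤ Real.sqrt (Real.pi * Real.log (1 / (2 * d T))) * (2 * d T) ^ (2 * k * V - V ^ 2) := by
      have : 0 < (2 * d T) ^ (2 * k * V - V ^ 2) := Real.rpow_pos_of_pos (by linarith) _
      positivity
    exact mul_le_mul_of_nonneg_left (trim_le a1 a3 b1) hp

end Run7.h5.TM
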